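import Pool.Agent.THF.F.ExA
import Pool.Agent.THF.K.Many
import Pool.Agent.H73.AL.Final

/-!
# TF2/X-R0: totally real fields of degree `2 ^ m`

The maximal real subfield of `ℚ(ζ)`, `ζ` of order `2 ^ (m + 2)`.
-/

namespace Pool.Agent.TF2

open NumberField IsDedekindDomain Pool.Agent.HWR Pool.Agent.QD Pool.Agent.QD.In Pool.Agent.LD
  Pool.Agent.MD Pool.Agent.THF Pool.Agent.H73.AL

private theorem exists_R0_aux (K : Type) [Field K] [NumberField K] (m : ℕ)
    (h : Module.finrank ℚ K = 2 ^ m * 2) [IsCMField K] :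
    Module.finrank ℚ (maximalRealSubfield K) = 2 ^ m := by
  have h4 := Module.finrank_mul_finrank ℚ (maximalRealSubfield K) K
  rw [Algebra.IsQuadraticExtension.finrank_eq_two _ K, h] at h4
  exact Nat.eq_of_mul_eq_mul_right (by norm_num) h4

private theorem exists_R0_real (K : Type) [Field K] [NumberField K] [IsCMField K] :
    InfinitePlace.nrComplexPlaces (maximalRealSubfield K) = 0 :=
  IsTotallyReal.nrComplexPlaces_eq_zero _

theorem exists_R0 (m : ℕ) : ∃ R : NF, Module.finrank ℚ R.F = 2 ^ m ∧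
    InfinitePlace.nrComplexPlaces R.F = 0 := by
  have h2 : 2 < 2 ^ (m + 2) := by
    have : 2 ^ 1 < 2 ^ (m + 2) := Nat.pow_lt_pow_right (by norm_num) (by omega)
    simpa using this
  have h1 : NeZero (2 ^ (m + 2)) := ⟨by positivity⟩
  have h0 : IsCyclotomicExtension {2 ^ (m + 2)} ℚ (CyclotomicField (2 ^ (m + 2)) ℚ) :=
    CyclotomicField.isCyclotomicExtension (2 ^ (m + 2)) ℚ
  have h3 : IsCMField (CyclotomicField (2 ^ (m + 2)) ℚ) :=
    IsCyclotomicExtension.Rat.isCMField (S := {2 ^ (m + 2)}) _ ⟨2 ^ (m + 2), rfl, h2⟩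
  have h4 : Module.finrank ℚ (CyclotomicField (2 ^ (m + 2)) ℚ) = 2 ^ m * 2 := by
    rw [IsCyclotomicExtension.finrank (n := 2 ^ (m + 2)) (CyclotomicField (2 ^ (m + 2)) ℚ)
      (Polynomial.cyclotomic.irreducible_rat (by positivity)),
      Nat.totient_prime_pow Nat.prime_two (by omega), show m + 2 - 1 = m + 1 by omega, pow_succ,
      show 2 - 1 = 1 from rfl, mul_one]
  exact ⟨⟨maximalRealSubfield (CyclotomicField (2 ^ (m + 2)) ℚ)⟩, exists_R0_aux _ m h4,
    exists_R0_real _⟩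

end Pool.Agent.TF2
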