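import Pool.Agent.LD.L.Defs

/-!
# TF2/X-Odd: a place of odd local degree outside a given finite set of primes

PLAN.  `X = ℚ(θ)`, `θ ∈ 𝓞 X` a primitive element (`Field.exists_primitive_element`, multiplied by an integer), `f = minpoly ℤ θ`, monic of positive degree.
(1) There is an integer `c ≠ 0` with `c α ∈ ℤ[θ]` for all `α ∈ 𝓞 X` (`𝓞 X` is a finitely generated `ℤ`-module and every element of `X` is
a rational polynomial in `θ`: common denominator of finitely many generators).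
(2) For every bound `b` there are a prime `p > b` and an integer `k` with `p ∣ f k` (Schur: if only finitely many primes `p ≤ b` divide the values of `f` take `k = f(0) * (b!)^j * y`-like arguments; or: `f k` for `k = t * N`, `N = (f 0) * b!` and `t` large:
`f (t N) = f 0 * (1 + b! * (..))`, and `1 + b! (..)` is prime to all `p ≤ b` and not `± 1` for `t` large; if `f 0 = 0` then `f = X` and every prime works).  Perhaps Mathlib has a lemma
on infinitely many primes dividing the values of a polynomial.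
(3) Take `b` larger than `|c|`, `|discr X|`, and all elements of `T`.  The norm of `θ - k` is `± f k`, so some place `w` over `p` contains `θ - k` (a prime ideal of `𝓞 X ⧸ (p, θ - k)`: `(p, θ - k) ≠ ⊤`, since otherwise `1 = p x + (θ - k) y`, and taking norms modulo `p` (or in `ℤ[θ] ⧸ (p, θ - k) ≅ ℤ/p`, `p ∤ c`) a contradiction).
For `α ∈ 𝓞 X`: `c α = g(θ) ≡ g(k)` modulo `w`, an integer, and `c` is a unit modulo `w`: the residue field is `ZMod p`, `inertiaDeg = 1` (over `ℤ`, and so over `𝓞 ℚ`).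
(4) `p ∤ discr X`: `ramificationIdx = 1` (`NumberField.not_dvd_discr_iff_forall_mem`, Mathlib.NumberTheory.NumberField.Discriminant.Different; `Algebra.IsUnramifiedAt` and the ramification index: `Ideal.ramificationIdx_eq_one..`).  So `locDeg ℚ w = 1`.
(`locDeg ℚ w = e * f` over `𝓞 ℚ`; see LD/L/Deg.lean, THF/L/Sq.lean (`even_of`) for the places of `ℚ`.  Any other proof is welcome: only `¬ 2 ∣ locDeg ℚ w` is needed.  Alternative: the zeta function: `∑_v N_v^(-s)` diverges as `s → 1`, the places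
with `f ≥ 2` and the finitely many ramified ones contribute a bounded sum: QD/N1Main `zeta_fe`, HWR `summable_nrm`.)
-/

namespace Pool.Agent.TF2

open NumberField IsDedekindDomain Pool.Agent.HWR Pool.Agent.LD

open Polynomial in
private theorem schur (f : ℤ[X]) (hf : 0 < f.natDegree) (b : ℕ) :
    ∃ p : ℕ, p.Prime ∧ b < p ∧ ∃ k : ℤ, (p : ℤ) ∣ f.eval k := by
  by_cases hc : f.coeff 0 = 0
  · obtain ⟨p, hp, hp'⟩ := Nat.exists_infinite_primes (b + 1)
    exact ⟨p, hp', hp, 0, by rw [← coeff_zero_eq_eval_zero, hc]; exact dvd_zero _⟩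
  · have hfg : ∀ x : ℤ, f.eval x = x * f.divX.eval x + f.coeff 0 := by
      intro x
      conv_lhs => rw [← X_mul_divX_add f]
      simp
    have hb : (b.factorial : ℤ) ≠ 0 := by exact_mod_cast b.factorial_ne_zero
    have hN : f.coeff 0 * (b.factorial : ℤ) ≠ 0 := mul_ne_zero hc hb
    have hex : ∃ t : ℤ, f.eval (f.coeff 0 * (b.factorial : ℤ) * t) ^ 2 ≠ f.coeff 0 ^ 2 := by
      by_contra h
      push Not at h
      have h0 : (f.comp (C (f.coeff 0 * (b.factorial : ℤ)) * X)) ^ 2 = C (f.coeff 0 ^ 2) := by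
        refine Polynomial.funext fun t => ?_
        rw [eval_pow, eval_comp, eval_mul, eval_C, eval_X, eval_C]
        exact h t
      have h1 := congrArg natDegree h0
      rw [natDegree_C, natDegree_pow, natDegree_comp, natDegree_C_mul_X _ hN] at h1
      omega
    obtain ⟨t, ht⟩ := hex
    set N : ℤ := f.coeff 0 * (b.factorial : ℤ) with hNd
    set u : ℤ := 1 + (b.factorial : ℤ) * (t * f.divX.eval (N * t)) with hu
    have e1 : f.eval (N * t) = f.coeff 0 * u := by
      rw [hfg, hu, hNd]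
      ring
    have hu1 : u.natAbs ≠ 1 := by
      intro h
      apply ht
      rw [e1, mul_pow]
      have : u ^ 2 = 1 := by
        rcases Int.natAbs_eq u with h' | h' <;> rw [h', h] <;> norm_num
      rw [this, mul_one]
    obtain ⟨p, hp, hpu⟩ := Nat.exists_prime_and_dvd hu1
    have hpu' : (p : ℤ) ∣ u := Int.natCast_dvd.2 hpu
    refine ⟨p, hp, ?_, N * t, ?_⟩
    · by_contra hle
      push Not at hle
      have h2 : (p : ℤ) ∣ (b.factorial : ℤ) := by
        exact_mod_cast (hp.dvd_factorial).2 hle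
      have h3 : (p : ℤ) ∣ 1 := by
        have h4 := dvd_sub hpu' (h2.mul_right (t * f.divX.eval (N * t)))
        rw [hu] at h4
        simpa using h4
      have h5 : p ∣ 1 := by exact_mod_cast h3
      exact hp.one_lt.ne' (Nat.dvd_one.1 h5)
    · rw [e1]
      exact hpu'.mul_left _

open Polynomial in
private theorem bez (f : ℤ[X]) (h : (f.map (algebraMap ℤ ℚ)).Separable) :
    ∃ (N : ℤ) (a b : ℤ[X]), N ≠ 0 ∧ a * f + b * derivative f = C N := by
  obtain ⟨a, b, hab⟩ := h
  obtain ⟨m, hm, hm'⟩ := IsLocalization.integerNormalization_spec (nonZeroDivisors ℤ) a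
  obtain ⟨n, hn, hn'⟩ := IsLocalization.integerNormalization_spec (nonZeroDivisors ℤ) b
  set A := IsLocalization.integerNormalization (nonZeroDivisors ℤ) a
  set B := IsLocalization.integerNormalization (nonZeroDivisors ℤ) b
  refine ⟨m * n, C n * A, C m * B, mul_ne_zero (nonZeroDivisors.ne_zero hm)
    (nonZeroDivisors.ne_zero hn), ?_⟩
  have hinj : Function.Injective (Polynomial.map (algebraMap ℤ ℚ)) :=
    Polynomial.map_injective _ (algebraMap ℤ ℚ).injective_int
  apply hinj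
  rw [Polynomial.map_add, Polynomial.map_mul, Polynomial.map_mul, Polynomial.map_mul,
    Polynomial.map_mul, hm', hn', Polynomial.map_C, Polynomial.map_C, Polynomial.map_C,
    ← derivative_map]
  have e : ∀ (z : ℤ) (q : ℚ[X]), z • q = C (algebraMap ℤ ℚ z) * q := by
    intro z q
    rw [← algebraMap_smul ℚ z q, smul_eq_C_mul]
  rw [e, e, map_mul, C_mul]
  calc _ = C (algebraMap ℤ ℚ m) * C (algebraMap ℤ ℚ n) *
      (a * f.map (algebraMap ℤ ℚ) + b * derivative (f.map (algebraMap ℤ ℚ))) := by ring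
    _ = _ := by rw [hab, mul_one]

private theorem exprim (X : Type) [Field X] [NumberField X] :
    ∃ θ : 𝓞 X, Algebra.adjoin ℚ ({(θ : X)} : Set X) = ⊤ := by
  obtain ⟨α, hα⟩ := Field.exists_primitive_element ℚ X
  have hα' : Algebra.adjoin ℚ ({α} : Set X) = ⊤ := by
    rw [← IntermediateField.adjoin_simple_toSubalgebra_of_isAlgebraic
      (Algebra.IsAlgebraic.isAlgebraic α), hα, IntermediateField.top_toSubalgebra]
  have hz : IsAlgebraic ℤ α :=
    (IsFractionRing.isAlgebraic_iff ℤ ℚ X).2 (Algebra.IsAlgebraic.isAlgebraic α)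
  obtain ⟨y, hy, hint⟩ := hz.exists_integral_multiple
  refine ⟨⟨y • α, hint⟩, ?_⟩
  rw [eq_top_iff, ← hα']
  refine Algebra.adjoin_le ?_
  rintro x rfl
  have h1 : (y • x : X) ∈ Algebra.adjoin ℚ ({(y • x : X)} : Set X) :=
    Algebra.subset_adjoin rfl
  have h2 := Subalgebra.smul_mem _ h1 ((y : ℚ)⁻¹)
  have h3 : ((y : ℚ)⁻¹) • (y • x : X) = x := by
    rw [zsmul_eq_mul, Algebra.smul_def, map_inv₀, map_intCast, ← mul_assoc,
      inv_mul_cancel₀ (by exact_mod_cast hy), one_mul]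
  rw [h3] at h2
  exact h2

private theorem expo (X : Type) [Field X] [NumberField X] (θ : 𝓞 X)
    (hθ : Algebra.adjoin ℚ ({(θ : X)} : Set X) = ⊤) : RingOfIntegers.exponent θ ≠ 0 := by
  have hint : IsIntegral ℤ (θ : X) := θ.2
  have hintQ : IsIntegral ℚ (θ : X) := hint.tower_top
  set B := PowerBasis.ofAdjoinEqTop hintQ hθ with hB
  have hg : B.gen = (θ : X) := PowerBasis.ofAdjoinEqTop_gen hintQ hθ
  have hgi : IsIntegral ℤ B.gen := by rw [hg]; exact hint
  have hd0 : Algebra.discr ℚ B.basis ≠ 0 := Algebra.discr_not_zero_of_basis ℚ B.basis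
  have hdi : IsIntegral ℤ (Algebra.discr ℚ B.basis) := Algebra.discr_isIntegral ℚ (fun i => by
    rw [B.basis_eq_pow]
    exact hgi.pow _)
  obtain ⟨D, hD⟩ := IsIntegrallyClosed.isIntegral_iff.1 hdi
  have hD0 : D ≠ 0 := by
    rintro rfl
    apply hd0
    rw [← hD, map_zero]
  have hmem : ((D.natAbs : ℕ) : 𝓞 X) ∈ conductor ℤ θ := by
    rw [mem_conductor_iff]
    intro b
    have h1 := Algebra.discr_mul_isIntegral_mem_adjoin (R := ℤ) (K := ℚ) (B := B) hgi (z := (b : X)) b.2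
    rw [hg, ← hD, algebraMap_smul] at h1
    have h2 : D • b ∈ Algebra.adjoin ℤ ({θ} : Set (𝓞 X)) := by
      have h3 : Algebra.adjoin ℤ ({(θ : X)} : Set X) =
          (Algebra.adjoin ℤ ({θ} : Set (𝓞 X))).map (Algebra.ofId (𝓞 X) X |>.restrictScalars ℤ) := by
        rw [AlgHom.map_adjoin, Set.image_singleton]
        rfl
      rw [h3] at h1
      obtain ⟨c, hc, hc'⟩ := h1
      have h4 : c = D • b := by
        apply RingOfIntegers.coe_injective
        rw [map_zsmul]
        exact hc'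
      rw [← h4]
      exact hc
    have h5 : ((D.natAbs : ℕ) : 𝓞 X) * b = (D.sign) • (D • b) := by
      rw [smul_smul, zsmul_eq_mul, Int.sign_mul_self_eq_natAbs, Int.cast_natCast]
    rw [h5]
    exact Subalgebra.smul_mem _ h2 _
  rw [RingOfIntegers.exponent_eq_sInf]
  have hne : {d : ℕ | 0 < d ∧ (d : 𝓞 X) ∈ conductor ℤ θ}.Nonempty :=
    ⟨D.natAbs, Int.natAbs_pos.2 hD0, hmem⟩
  exact (Nat.sInf_mem hne).1.ne'

private theorem sepa (X : Type) [Field X] [NumberField X] (θ : 𝓞 X) :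
    ((minpoly ℤ θ).map (algebraMap ℤ ℚ)).Separable := by
  have h : minpoly ℚ (θ : X) = (minpoly ℤ θ).map (algebraMap ℤ ℚ) :=
    minpoly.isIntegrallyClosed_eq_field_fractions ℚ X θ.isIntegral
  rw [← h]
  exact Algebra.IsSeparable.isSeparable ℚ (θ : X)

open Polynomial RingOfIntegers in
private theorem split {F : Type} [Field F] [NumberField F] (θ : 𝓞 F) (p : ℕ) [hp : Fact p.Prime]
    (he : ¬ p ∣ exponent θ) (N : ℤ) (a b : ℤ[X])
    (hab : a * minpoly ℤ θ + b * derivative (minpoly ℤ θ) = C N) (hN : ¬ (p : ℤ) ∣ N)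
    (k : ℤ) (hk : (p : ℤ) ∣ (minpoly ℤ θ).eval k) :
    ∃ P : Ideal (𝓞 F), P.IsPrime ∧ ((p : ℕ) : 𝓞 F) ∈ P ∧ P ≠ ⊥ ∧
      P.ramificationIdx ℤ = 1 ∧ P.inertiaDeg ℤ = 1 := by
  have hg0 : (minpoly ℤ θ).map (Int.castRingHom (ZMod p)) ≠ 0 :=
    map_monic_ne_zero (minpoly.monic θ.isIntegral)
  have hk0 : ((minpoly ℤ θ).map (Int.castRingHom (ZMod p))).eval ((k : ℤ) : ZMod p) = 0 := by
    rw [← eq_intCast (Int.castRingHom (ZMod p)), eval_map_apply, eq_intCast,
      ZMod.intCast_zmod_eq_zero_iff_dvd]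
    exact hk
  have hQd : (X - C ((k : ℤ) : ZMod p)) ∣ (minpoly ℤ θ).map (Int.castRingHom (ZMod p)) :=
    dvd_iff_isRoot.2 hk0
  have hQ : (X - C ((k : ℤ) : ZMod p)) ∈ monicFactorsMod θ p := by
    rw [Multiset.mem_toFinset, Polynomial.mem_normalizedFactors_iff hg0]
    exact ⟨irreducible_X_sub_C _, monic_X_sub_C _, hQd⟩
  have hmul : multiplicity (X - C ((k : ℤ) : ZMod p))
      ((minpoly ℤ θ).map (Int.castRingHom (ZMod p))) = 1 := by
    refine multiplicity_eq_of_dvd_of_not_dvd (by rwa [pow_one]) ?_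
    intro h2
    have hd : (derivative ((minpoly ℤ θ).map (Int.castRingHom (ZMod p)))).eval
        ((k : ℤ) : ZMod p) = 0 := by
      obtain ⟨r, hr⟩ := h2
      rw [hr]
      simp [derivative_mul, derivative_pow]
    have h3 := congrArg (fun q : ℤ[X] => (q.map (Int.castRingHom (ZMod p))).eval
      ((k : ℤ) : ZMod p)) hab
    simp only [Polynomial.map_add, Polynomial.map_mul, eval_add, eval_mul, hk0, ← derivative_map,
      hd, mul_zero, add_zero, Polynomial.map_C, eval_C] at h3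
    rw [eq_intCast] at h3
    exact hN ((ZMod.intCast_zmod_eq_zero_iff_dvd N p).1 h3.symm)
  have hP1 := ((Ideal.primesOverSpanEquivMonicFactorsMod he).symm ⟨_, hQ⟩).2.1
  have hP2 := ((Ideal.primesOverSpanEquivMonicFactorsMod he).symm ⟨_, hQ⟩).2.2
  have hr := Ideal.ramificationIdx_primesOverSpanEquivMonicFactorsMod_symm_apply' he hQ
  have hi := Ideal.inertiaDeg_primesOverSpanEquivMonicFactorsMod_symm_apply' he hQ
  rw [hmul] at hr
  rw [natDegree_X_sub_C] at hi
  have hmem : ((p : ℕ) : 𝓞 F) ∈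
      ((Ideal.primesOverSpanEquivMonicFactorsMod he).symm ⟨_, hQ⟩ : Ideal (𝓞 F)) := by
    have h4 : ((p : ℕ) : ℤ) ∈ Ideal.span {(p : ℤ)} := Ideal.mem_span_singleton_self _
    rw [hP2.over, Ideal.mem_comap] at h4
    simpa using h4
  refine ⟨_, hP1, hmem, ?_, hr, hi⟩
  intro h0
  rw [h0, Ideal.mem_bot] at hmem
  exact hp.out.ne_zero (by exact_mod_cast hmem)

private theorem down {F : Type} [Field F] [NumberField F] (w : HeightOneSpectrum (𝓞 F))
    (h1 : w.asIdeal.ramificationIdx ℤ = 1) (h2 : w.asIdeal.inertiaDeg ℤ = 1) :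
    locDeg ℚ w = 1 := by
  have e1 := Ideal.ramificationIdx_tower (R := ℤ) (w.asIdeal.under (𝓞 ℚ)) w.asIdeal
  have e2 := Ideal.inertiaDeg_tower (R := ℤ) (w.asIdeal.under (𝓞 ℚ)) w.asIdeal
  rw [h1] at e1
  rw [h2] at e2
  rw [locDeg, Nat.eq_one_of_mul_eq_one_left e1.symm, Nat.eq_one_of_mul_eq_one_left e2.symm]

theorem exists_odd (X : Type) [Field X] [NumberField X] (T : Finset ℕ) :
    ∃ p : ℕ, p.Prime ∧ p ∉ T ∧ ∃ w : HeightOneSpectrum (𝓞 X), ((p : ℕ) : 𝓞 X) ∈ w.asIdeal ∧
      ¬ 2 ∣ locDeg ℚ w := by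
  obtain ⟨θ, hθ⟩ := exprim X
  have he := expo X θ hθ
  obtain ⟨N, a, b, hN, hab⟩ := bez (minpoly ℤ θ) (sepa X θ)
  obtain ⟨p, hp, hlt, k, hk⟩ := schur (minpoly ℤ θ) (minpoly.natDegree_pos θ.isIntegral)
    (RingOfIntegers.exponent θ + N.natAbs + ∑ t ∈ T, t)
  have hp' : Fact p.Prime := ⟨hp⟩
  have h1 : ¬ p ∣ RingOfIntegers.exponent θ := fun h => by
    have := Nat.le_of_dvd (Nat.pos_of_ne_zero he) h
    omega
  have h2 : ¬ (p : ℤ) ∣ N := fun h => by
    have := Nat.le_of_dvd (Int.natAbs_pos.2 hN) (Int.natCast_dvd.1 h)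
    omega
  have h3 : p ∉ T := fun h => by
    have : p ≤ ∑ t ∈ T, t := Finset.single_le_sum (f := fun t => t) (fun _ _ => Nat.zero_le _) h
    omega
  obtain ⟨P, hP, hmem, hbot, hr, hi⟩ := split θ p h1 N a b hab h2 k hk
  refine ⟨p, hp, h3, ⟨P, hP, hbot⟩, hmem, ?_⟩
  rw [down ⟨P, hP, hbot⟩ hr hi]
  norm_num

end Pool.Agent.TF2
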